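import Mathlib
import Pool.Agent.Lib.MP_97fe03_al.Final

/-!
Homological shift algebras of complementary edge ideals of connected graphs: for a connected graph
`G` on `Fin n`, with `I` its complementary edge ideal, `HS_i(I^(s+1)) = I * HS_i(I^s)` whenever
`1 ≤ i ≤ s`, over every field.

`Tor_i^S(K, J)_a` is the homology of the Koszul complex `K(x_1, ..., x_n; J)` in homological degree
`i` and multidegree `a`. A chain of this complex is a family `f` of elements of `J` indexed by the
subsets `τ` of the variables, `f τ` being the coefficient of the basis element `e_τ`, which has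
homological degree `#τ` and multidegree the indicator vector of `τ`.
-/

set_option autoImplicit false

open MvPolynomial

namespace Pool.Agent.Results.MP_97fe03_al.GeneratedInDegree

/-- The complementary edge ideal of a graph `G` on the vertex set `Fin n`: it is generated by the
products of all variables but `x_j, x_k`, for the edges `{j, k}` of `G`. -/
noncomputable def compEdgeIdeal (K : Type*) [Field K] {n : ℕ} (G : SimpleGraph (Fin n)) :
    Ideal (MvPolynomial (Fin n) K) :=
  Ideal.span {p | ∃ j k, G.Adj j k ∧ p = ∏ i ∈ Finset.univ \ {j, k}, X i}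

/-- The exponent vector of the squarefree monomial with support `τ`. -/
noncomputable def expo {n : ℕ} (τ : Finset (Fin n)) : Fin n →₀ ℕ :=
  ∑ x ∈ τ, Finsupp.single x 1

/-- The Koszul differential on families of polynomials: the image of `∑ f_τ e_τ` has at `e_ρ` the
coefficient `∑_{j ∉ ρ} ± x_j f_{ρ ∪ j}`, the sign being `(-1)^#{k ∈ ρ | k < j}`. -/
noncomputable def koszulD {K : Type*} [Field K] {n : ℕ}
    (f : Finset (Fin n) → MvPolynomial (Fin n) K) : Finset (Fin n) → MvPolynomial (Fin n) K :=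
  fun ρ => ∑ j ∈ ρᶜ, (-1) ^ (ρ.filter (· < j)).card * X j * f (insert j ρ)

/-- `f` is a chain of homological degree `i` and multidegree `a` of the Koszul complex of the
variables with coefficients in the ideal `J`. -/
structure IsChain {K : Type*} [Field K] {n : ℕ} (J : Ideal (MvPolynomial (Fin n) K)) (i : ℕ)
    (a : Fin n →₀ ℕ) (f : Finset (Fin n) → MvPolynomial (Fin n) K) : Prop where
  mem : ∀ τ, f τ ∈ J
  card : ∀ τ, f τ ≠ 0 → τ.card = i
  degree : ∀ τ, ∀ m ∈ (f τ).support, m + expo τ = a

/-- `Tor_i^S(K, J)_a ≠ 0`: some cycle of homological degree `i` and multidegree `a` of the Koszul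
complex with coefficients in `J` is not a boundary. -/
def TorNeZero {K : Type*} [Field K] {n : ℕ} (J : Ideal (MvPolynomial (Fin n) K)) (i : ℕ)
    (a : Fin n →₀ ℕ) : Prop :=
  ∃ f, IsChain J i a f ∧ koszulD f = 0 ∧ ¬ ∃ g, IsChain J (i + 1) a g ∧ koszulD g = f

/-- The `i`-th homological shift ideal of `J`. -/
noncomputable def HS {K : Type*} [Field K] {n : ℕ} (i : ℕ)
    (J : Ideal (MvPolynomial (Fin n) K)) : Ideal (MvPolynomial (Fin n) K) :=
  Ideal.span {p | ∃ a, TorNeZero J i a ∧ p = monomial a 1}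

section proof

open Pool.Agent.Lib.MP_97fe03_al

variable {K : Type*} [Field K] {n : ℕ} {G : SimpleGraph (Fin n)}

lemma expo_apply (τ : Finset (Fin n)) (y : Fin n) : expo τ y = ind τ y := by
  simp [expo, ind, Finsupp.finsetSum_apply, Finsupp.single_apply]

lemma expo_insert {j : Fin n} {τ : Finset (Fin n)} (h : j ∉ τ) :
    expo (insert j τ) = Finsupp.single j 1 + expo τ := by
  unfold expo
  rw [Finset.sum_insert h]

/-- Exponent vectors of the generators of the `s`-th power. -/
def gens (G : SimpleGraph (Fin n)) (s : ℕ) : Set (Fin n →₀ ℕ) :=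
  {e | ∃ d, Mat G s d ∧ ∀ x, e x + d x = s}

lemma mat_le {s : ℕ} {d : Fin n → ℕ} (h : Mat G s d) (x : Fin n) : d x ≤ s := by
  induction h with
  | zero => simp
  | @add k a u v h huv ih =>
    simp only [Pi.add_apply]
    have hne := huv.ne
    by_cases h1 : x = u
    · subst h1
      rw [dl_self, dl_ne hne]; omega
    · rw [dl_ne h1]
      by_cases h2 : x = v
      · subst h2
        rw [dl_self]; omega
      · rw [dl_ne h2]; omega

lemma prod_eq (j k : Fin n) : (∏ i ∈ Finset.univ \ {j, k}, (X i : MvPolynomial (Fin n) K)) =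
    monomial (expo (Finset.univ \ {j, k})) 1 := by
  unfold expo
  rw [MvPolynomial.monomial_sum_one]
  rfl

lemma compEdgeIdeal_eq : compEdgeIdeal K G =
    Ideal.span ((fun e => monomial e (1 : K)) '' gens G 1) := by
  unfold compEdgeIdeal
  congr 1
  ext p
  simp only [Set.mem_ofPred_eq, Set.mem_image]
  constructor
  · rintro ⟨j, k, hjk, rfl⟩
    refine ⟨expo (Finset.univ \ {j, k}), ⟨0 + dl j + dl k, Mat.zero.add hjk, fun x => ?_⟩,
      (prod_eq j k).symm⟩
    rw [expo_apply]
    simp only [ind, dl, Pi.add_apply, Pi.zero_apply, Finset.mem_sdiff, Finset.mem_univ, true_and,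
      Finset.mem_insert, Finset.mem_singleton]
    have hne := hjk.ne
    by_cases h1 : x = j
    · subst h1
      simp [hne]
    · by_cases h2 : x = k
      · subst h2
        simp [h1]
      · simp [h1, h2]
  · rintro ⟨e, ⟨d, hd, he⟩, rfl⟩
    obtain ⟨u, v, huv, rfl⟩ : ∃ u v, G.Adj u v ∧ d = dl u + dl v := by
      cases hd with
      | @add k a u v h huv =>
        cases h
        exact ⟨u, v, huv, by rw [zero_add]⟩
    refine ⟨u, v, huv, ?_⟩
    rw [prod_eq]
    have hee : e = expo (Finset.univ \ {u, v}) := ?_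
    · rw [hee]
    ext x
    rw [expo_apply]
    have h := he x
    simp only [ind, dl, Pi.add_apply, Finset.mem_sdiff, Finset.mem_univ, true_and,
      Finset.mem_insert, Finset.mem_singleton] at h ⊢
    have hne := huv.ne
    by_cases h1 : x = u
    · subst h1
      simp [hne] at h ⊢
      exact h
    · by_cases h2 : x = v
      · subst h2
        simp [h1] at h ⊢
        exact h
      · simp [h1, h2] at h ⊢
        exact h

open scoped Pointwise in
lemma gens_mul (s : ℕ) : ((fun e => monomial e (1 : K)) '' gens G s) *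
    ((fun e => monomial e (1 : K)) '' gens G 1) = (fun e => monomial e (1 : K)) '' gens G (s + 1) := by
  ext p
  rw [Set.mem_mul]
  constructor
  · rintro ⟨_, ⟨e, ⟨d, hd, he⟩, rfl⟩, _, ⟨e', ⟨d', hd', he'⟩, rfl⟩, rfl⟩
    obtain ⟨u, v, huv, rfl⟩ : ∃ u v, G.Adj u v ∧ d' = dl u + dl v := by
      cases hd' with
      | @add k a u v h huv =>
        cases h
        exact ⟨u, v, huv, by rw [zero_add]⟩
    refine ⟨e + e', ⟨d + dl u + dl v, hd.add huv, fun x => ?_⟩, ?_⟩
    · have h1 := he x
      have h2 := he' x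
      simp only [Pi.add_apply, Finsupp.add_apply] at h1 h2 ⊢
      omega
    · simp only [monomial_mul, mul_one]
  · rintro ⟨e, ⟨d, hd, he⟩, rfl⟩
    cases hd with
    | @add k a u v h huv =>
      refine ⟨monomial (Finsupp.equivFunOnFinite.symm fun x => s - a x) 1,
        ⟨_, ⟨a, h, fun x => ?_⟩, rfl⟩,
        monomial (Finsupp.equivFunOnFinite.symm fun x => 1 - (dl u x + dl v x)) 1,
        ⟨_, ⟨0 + dl u + dl v, Mat.zero.add huv, fun x => ?_⟩, rfl⟩, ?_⟩
      · have := mat_le h x
        simp only [Finsupp.equivFunOnFinite_symm_apply_apply]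
        omega
      · have := mat_le (Mat.zero.add huv) x
        simp only [Finsupp.equivFunOnFinite_symm_apply_apply, Pi.add_apply, Pi.zero_apply] at this ⊢
        omega
      · rw [monomial_mul, mul_one]
        congr 2
        ext x
        have h1 := mat_le h x
        have h2 := mat_le (Mat.zero.add huv) x
        have h3 := he x
        simp only [Finsupp.equivFunOnFinite_symm_apply_apply, Pi.add_apply, Pi.zero_apply,
          Finsupp.add_apply] at h1 h2 h3 ⊢
        omega

lemma pow_eq (s : ℕ) : compEdgeIdeal K G ^ s =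
    Ideal.span ((fun e => monomial e (1 : K)) '' gens G s) := by
  induction s with
  | zero =>
    rw [pow_zero, Ideal.one_eq_top, eq_comm, Ideal.eq_top_iff_one]
    refine Ideal.subset_span ⟨0, ⟨0, Mat.zero, fun x => by simp⟩, ?_⟩
    simp
  | succ s ih =>
    rw [pow_succ, ih, compEdgeIdeal_eq, Ideal.span_mul_span', gens_mul]

/-- The cells of the strand of multidegree `a`. -/
def QQ (G : SimpleGraph (Fin n)) (s : ℕ) (a : Fin n →₀ ℕ) (τ : Finset (Fin n)) : Prop :=
  (∀ x ∈ τ, 1 ≤ a x) ∧ ∃ d, Mat G s d ∧ ∀ x, s + ind τ x ≤ a x + d x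

lemma mem_pow_iff {s : ℕ} {m : Fin n →₀ ℕ} {c : K} (hc : c ≠ 0) :
    monomial m c ∈ compEdgeIdeal K G ^ s ↔ ∃ d, Mat G s d ∧ ∀ x, s ≤ m x + d x := by
  rw [pow_eq, mem_ideal_span_monomial_image]
  have hsupp : (monomial m c : MvPolynomial (Fin n) K).support = {m} := by
    classical
    rw [support_monomial, if_neg hc]
  rw [hsupp]
  simp only [Finset.mem_singleton, forall_eq]
  constructor
  · rintro ⟨e, ⟨d, hd, he⟩, hle⟩
    refine ⟨d, hd, fun x => ?_⟩
    have h1 := he x
    have h2 : e x ≤ m x := hle x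
    omega
  · rintro ⟨d, hd, hle⟩
    refine ⟨Finsupp.equivFunOnFinite.symm fun x => s - d x, ⟨d, hd, fun x => ?_⟩, fun x => ?_⟩
    · have := mat_le hd x
      simp only [Finsupp.equivFunOnFinite_symm_apply_apply]
      omega
    · have h1 := hle x
      simp only [Finsupp.equivFunOnFinite_symm_apply_apply]
      omega

/-- The chain with coefficient function `z`. -/
noncomputable def toF (a : Fin n →₀ ℕ) (z : Finset (Fin n) → K) :
    Finset (Fin n) → MvPolynomial (Fin n) K :=
  fun τ => monomial (a - expo τ) (z τ)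

lemma toF_isChain {s i : ℕ} {a : Fin n →₀ ℕ} {z : Finset (Fin n) → K}
    (hz : ∀ τ, z τ ≠ 0 → τ.card = i ∧ QQ G s a τ) :
    IsChain (compEdgeIdeal K G ^ s) i a (toF a z) := by
  refine ⟨fun τ => ?_, fun τ hτ => ?_, fun τ m hm => ?_⟩
  · by_cases h0 : z τ = 0
    · unfold toF
      rw [h0, monomial_zero]
      exact Ideal.zero_mem _
    · obtain ⟨-, h1, d, hd, hle⟩ := hz τ h0
      unfold toF
      rw [mem_pow_iff h0]
      refine ⟨d, hd, fun x => ?_⟩
      have h2 := hle x
      rw [Finsupp.tsub_apply, expo_apply]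
      omega
  · have h0 : z τ ≠ 0 := by
      intro h0
      apply hτ
      unfold toF
      rw [h0, monomial_zero]
    exact (hz τ h0).1
  · have h0 : z τ ≠ 0 := by
      intro h0
      unfold toF at hm
      rw [h0, monomial_zero] at hm
      simp at hm
    classical
    unfold toF at hm
    rw [support_monomial, if_neg h0, Finset.mem_singleton] at hm
    subst hm
    obtain ⟨-, h1, -⟩ := hz τ h0
    apply tsub_add_cancel_of_le
    intro x
    rw [expo_apply]
    unfold ind
    split_ifs with h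
    · exact h1 x h
    · exact Nat.zero_le _

lemma exists_toF {s i : ℕ} {a : Fin n →₀ ℕ} {f : Finset (Fin n) → MvPolynomial (Fin n) K}
    (hf : IsChain (compEdgeIdeal K G ^ s) i a f) :
    ∃ z : Finset (Fin n) → K, (∀ τ, z τ ≠ 0 → τ.card = i ∧ QQ G s a τ) ∧ f = toF a z := by
  have key : ∀ τ, f τ = monomial (a - expo τ) (coeff (a - expo τ) (f τ)) := by
    intro τ
    ext m
    classical
    rw [coeff_monomial]
    split_ifs with h
    · rw [h]
    · by_contra hne
      have h1 := hf.degree τ m (mem_support_iff.mpr hne)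
      apply h
      rw [← h1, add_tsub_cancel_right]
  refine ⟨fun τ => coeff (a - expo τ) (f τ), fun τ hτ => ?_, funext key⟩
  have hne : f τ ≠ 0 := by
    intro h
    apply hτ
    simp only [h, coeff_zero]
  refine ⟨hf.card τ hne, ?_⟩
  have h1 := hf.degree τ _ (mem_support_iff.mpr hτ)
  have h2 : ∀ x, a x = (a - expo τ) x + ind τ x := by
    intro x
    conv_lhs => rw [← h1]
    rw [Finsupp.add_apply, expo_apply]
  have h3 := hf.mem τ
  rw [key τ, mem_pow_iff hτ] at h3
  obtain ⟨d, hd, hle⟩ := h3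
  refine ⟨fun x hx => ?_, d, hd, fun x => ?_⟩
  · have := h2 x
    simp only [ind, if_pos hx] at this
    omega
  · have h4 := h2 x
    have h5 := hle x
    omega

lemma koszulD_toF {a : Fin n →₀ ℕ} {z : Finset (Fin n) → K}
    (hz : ∀ τ, z τ ≠ 0 → ∀ x ∈ τ, 1 ≤ a x) : koszulD (toF a z) = toF a (bd z) := by
  funext ρ
  unfold koszulD toF
  rw [bd_apply, map_sum]
  refine Finset.sum_congr rfl fun j hj => ?_
  rw [Finset.mem_compl] at hj
  by_cases h0 : z (insert j ρ) = 0
  · rw [h0, mul_zero, monomial_zero, monomial_zero, mul_zero]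
  · have h1 := hz _ h0
    have h2 : a - expo ρ = Finsupp.single j 1 + (a - expo (insert j ρ)) := by
      ext x
      rw [Finsupp.add_apply, Finsupp.tsub_apply, Finsupp.tsub_apply, expo_insert hj,
        Finsupp.add_apply, expo_apply, Finsupp.single_apply]
      by_cases hx : j = x
      · subst hx
        have := h1 j (Finset.mem_insert_self _ _)
        simp only [if_true, ind, if_neg hj]
        omega
      · rw [if_neg hx]; omega
    rw [h2]
    have h3 : (X j : MvPolynomial (Fin n) K) = monomial (Finsupp.single j 1) 1 := rfl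
    have h4 : ((-1) ^ (ρ.filter (· < j)).card : MvPolynomial (Fin n) K) = C (sg K j ρ) := by
      unfold sg
      rw [map_pow, map_neg, map_one]
    rw [h3, h4, mul_assoc, monomial_mul, one_mul, C_mul_monomial]

lemma toF_inj {a : Fin n →₀ ℕ} {z w : Finset (Fin n) → K} (h : toF a z = toF a w) : z = w := by
  funext τ
  have h1 := congrArg (coeff (a - expo τ)) (congrFun h τ)
  unfold toF at h1
  rwa [coeff_monomial, coeff_monomial, if_pos rfl, if_pos rfl] at h1

lemma torNeZero_iff_cells {s i : ℕ} {a : Fin n →₀ ℕ} :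
    TorNeZero (compEdgeIdeal K G ^ s) i a ↔ ∃ z : Finset (Fin n) → K,
      (∀ τ, z τ ≠ 0 → τ.card = i ∧ QQ G s a τ) ∧ bd z = 0 ∧
      ¬ ∃ w : Finset (Fin n) → K, (∀ τ, w τ ≠ 0 → τ.card = i + 1 ∧ QQ G s a τ) ∧ bd w = z := by
  constructor
  · rintro ⟨f, hf, hf0, hg⟩
    obtain ⟨z, hz, rfl⟩ := exists_toF hf
    refine ⟨z, hz, ?_, ?_⟩
    · rw [koszulD_toF (fun τ hτ => (hz τ hτ).2.1)] at hf0
      apply toF_inj (a := a)
      rw [hf0]
      funext τ
      simp [toF]
    · rintro ⟨w, hw, rfl⟩
      exact hg ⟨toF a w, toF_isChain hw, koszulD_toF (fun τ hτ => (hw τ hτ).2.1)⟩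
  · rintro ⟨z, hz, hbz, hw⟩
    refine ⟨toF a z, toF_isChain hz, ?_, ?_⟩
    · rw [koszulD_toF (fun τ hτ => (hz τ hτ).2.1), hbz]
      funext τ
      simp [toF]
    · rintro ⟨g, hg, hg'⟩
      obtain ⟨w, hw1, rfl⟩ := exists_toF hg
      rw [koszulD_toF (fun τ hτ => (hw1 τ hτ).2.1)] at hg'
      exact hw ⟨w, hw1, toF_inj hg'⟩

/-- Nonvanishing multidegrees. -/
lemma torNeZero_iff [Nonempty (Fin n)] (hG : ∀ v, ∃ w, G.Adj v w) {s i : ℕ} {a : Fin n →₀ ℕ} :
    TorNeZero (compEdgeIdeal K G ^ s) i a ↔
      ∃ b : Fin n → ℕ, (∀ x, a x + b x = s) ∧ ¬ Ex K (Mt G s) Finset.univ b i := by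
  have hcell : ∀ b : Fin n → ℕ, (∀ x, a x + b x = s) → ∀ τ, QQ G s a τ ↔ Mt G s (b + ind τ) := by
    intro b hb τ
    rw [mt_iff_cover hG]
    constructor
    · rintro ⟨h1, d, hd, hle⟩
      refine ⟨d, hd, le_of fun x => ?_⟩
      have h2 := hle x
      have h3 := hb x
      simp only [Pi.add_apply]
      omega
    · rintro ⟨d, hd, hle⟩
      refine ⟨fun x hx => ?_, d, hd, fun x => ?_⟩
      · have h2 := le_at hle x
        have h3 := hb x
        have h4 := mat_le hd x
        simp only [Pi.add_apply, ind, if_pos hx] at h2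
        omega
      · have h2 := le_at hle x
        have h3 := hb x
        simp only [Pi.add_apply] at h2
        omega
  rw [torNeZero_iff_cells]
  constructor
  · rintro ⟨z, hz, hbz, hw⟩
    have ha : ∀ x, a x ≤ s := by
      intro x
      by_contra hx
      apply hw
      refine ⟨ext x z, fun τ hτ => ?_, ?_⟩
      · have hxτ : x ∈ τ := by
          by_contra h
          exact hτ (ext_of_notMem _ h)
        rw [ext_of_mem _ hxτ] at hτ
        obtain ⟨h1, h2, d, hd, hle⟩ := hz _ (right_ne_zero_of_mul hτ)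
        rw [Finset.card_erase_of_mem hxτ] at h1
        have h3 := Finset.card_pos.mpr ⟨x, hxτ⟩
        refine ⟨by omega, fun y hy => ?_, d, hd, fun y => ?_⟩
        · by_cases hyx : y = x
          · subst hyx; omega
          · exact h2 y (Finset.mem_erase.mpr ⟨hyx, hy⟩)
        · by_cases hyx : y = x
          · subst hyx
            simp only [ind, if_pos hxτ]; omega
          · have h4 := hle y
            have h5 : ind (τ.erase x) y = ind τ y := by simp [ind, hyx]
            rw [h5] at h4
            exact h4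
      · rw [bd_ext, hbz, map_zero, sub_zero]
    refine ⟨fun x => s - a x, fun x => by have := ha x; show a x + (s - a x) = s; omega,
      fun hE => ?_⟩
    have hc := hcell (fun x => s - a x) (fun x => by
      have := ha x
      show a x + (s - a x) = s
      omega)
    obtain ⟨w, hw1, hw2⟩ := hE z (fun τ hτ => ⟨Finset.subset_univ _, (hz τ hτ).1,
      (hc τ).mp (hz τ hτ).2⟩) (fun ρ _ _ => by rw [hbz]; rfl)
    refine hw ⟨w, fun τ hτ => ⟨(hw1 τ hτ).2.1, (hc τ).mpr (hw1 τ hτ).2.2⟩, ?_⟩
    funext ρ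
    by_cases hρ : Mt G s ((fun x => s - a x) + ind ρ)
    · exact hw2 ρ (Finset.subset_univ _) hρ
    · have h1 : z ρ = 0 := by
        by_contra hne
        exact hρ ((hc ρ).mp (hz ρ hne).2)
      have h2 : bd w ρ = 0 := by
        by_contra hne
        obtain ⟨j, hj, hj'⟩ := exists_of_bd_ne hne
        exact hρ (Mt.down_ind hj (hw1 _ hj').2.2)
      rw [h1, h2]
  · rintro ⟨b, hb, hE⟩
    have hc := hcell b hb
    have hE' := hE
    unfold Ex at hE'
    push Not at hE'
    obtain ⟨z, hz, hzc, hw⟩ := hE'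
    refine ⟨z, fun τ hτ => ⟨(hz τ hτ).2.1, (hc τ).mpr (hz τ hτ).2.2⟩, ?_, ?_⟩
    · funext ρ
      by_contra hne
      obtain ⟨j, hj, hj'⟩ := exists_of_bd_ne hne
      exact hne (hzc ρ (Finset.subset_univ _) (Mt.down_ind hj (hz _ hj').2.2))
    · rintro ⟨w, hw1, hw2⟩
      obtain ⟨ρ, -, -, h1⟩ := hw w (fun τ hτ => ⟨Finset.subset_univ _, (hw1 τ hτ).1,
        (hc τ).mp (hw1 τ hτ).2⟩)
      exact h1 (by rw [hw2])

lemma le_of_not_ex [Nonempty (Fin n)] (hG : ∀ v, ∃ w, G.Adj v w) {s i : ℕ} {b : Fin n → ℕ}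
    (h : ¬ Ex K (Mt G s) Finset.univ b i) (x : Fin n) : b x ≤ s := by
  obtain ⟨z, hz0, hz, -⟩ := exists_cycle_of_not_ex h
  obtain ⟨τ, hτ⟩ := Function.ne_iff.mp hz0
  obtain ⟨-, h1⟩ := hz τ hτ
  obtain ⟨d, hd, hle⟩ := (mt_iff_cover hG).mp h1
  have h2 := le_at hle x
  have h3 := mat_le hd x
  simp only [Pi.add_apply] at h2
  omega

lemma torNeZero_bot {i : ℕ} {a : Fin n →₀ ℕ} :
    ¬ TorNeZero (⊥ : Ideal (MvPolynomial (Fin n) K)) i a := by
  rintro ⟨f, hf, -, hg⟩
  have : f = 0 := by
    funext τ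
    have := hf.mem τ
    rwa [Ideal.mem_bot] at this
  subst this
  refine hg ⟨0, ⟨fun τ => Ideal.zero_mem _, fun τ hτ => absurd rfl hτ, fun τ m hm => ?_⟩, ?_⟩
  · simp at hm
  · funext ρ
    simp [koszulD]

lemma exists_gen {u v : Fin n} (huv : G.Adj u v) : ∃ e : Fin n →₀ ℕ,
    (∀ x, e x + (dl u + dl v) x = 1) ∧
    ∀ (K : Type*) [Field K], monomial e (1 : K) ∈ compEdgeIdeal K G := by
  refine ⟨Finsupp.equivFunOnFinite.symm fun x => 1 - (dl u + dl v) x, fun x => ?_, ?_⟩
  · have := mat_le (Mat.zero.add huv) x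
    rw [Finsupp.equivFunOnFinite_symm_apply_apply]
    simp only [Pi.add_apply, Pi.zero_apply] at this ⊢
    omega
  · intro K _
    rw [compEdgeIdeal_eq]
    refine Ideal.subset_span ⟨_, ⟨0 + dl u + dl v, Mat.zero.add huv, fun x => ?_⟩, rfl⟩
    have := mat_le (Mat.zero.add huv) x
    rw [Finsupp.equivFunOnFinite_symm_apply_apply]
    simp only [Pi.add_apply, Pi.zero_apply] at this ⊢
    omega

theorem main_aux (K : Type*) [Field K] (n : ℕ) (G : SimpleGraph (Fin n)) (hG : G.Connected)
    (i s : ℕ) (hi : 1 ≤ i) (his : i ≤ s) :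
    HS i (compEdgeIdeal K G ^ (s + 1)) = compEdgeIdeal K G * HS i (compEdgeIdeal K G ^ s) := by
  have := hG.nonempty
  by_cases hn : Nontrivial (Fin n)
  · have hA : ∀ v, ∃ w, G.Adj v w := fun v => hG.preconnected.exists_adj_of_nontrivial v
    apply le_antisymm
    · unfold HS
      rw [Ideal.span_le]
      rintro _ ⟨a, ha, rfl⟩
      rw [torNeZero_iff hA] at ha
      obtain ⟨b, hb, hE⟩ := ha
      obtain ⟨b', u, v, huv, rfl, hE'⟩ :=
        Pool.Agent.Lib.MP_97fe03_al.comb_one hG.preconnected hA his hE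
      have hb' := le_of_not_ex hA hE'
      set a' : Fin n →₀ ℕ := Finsupp.equivFunOnFinite.symm fun x => s - b' x with ha'
      have ha'x : ∀ x, a' x + b' x = s := by
        intro x
        have := hb' x
        rw [ha', Finsupp.equivFunOnFinite_symm_apply_apply]
        omega
      obtain ⟨e, he, hee⟩ := exists_gen huv
      have h1 : a = e + a' := by
        ext x
        have h2 := hb x
        have h3 := ha'x x
        have h4 := he x
        simp only [Pi.add_apply, Finsupp.add_apply] at h2 h4 ⊢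
        omega
      have h5 : (monomial a (1 : K)) = monomial e 1 * monomial a' 1 := by
        rw [monomial_mul, mul_one, h1]
      rw [SetLike.mem_coe, h5]
      refine Ideal.mul_mem_mul (hee K) (Ideal.subset_span ⟨a', ?_, rfl⟩)
      rw [torNeZero_iff hA]
      exact ⟨b', ha'x, hE'⟩
    · have hgen := compEdgeIdeal_eq (K := K) (G := G)
      have hmul : compEdgeIdeal K G * HS i (compEdgeIdeal K G ^ s) =
          Ideal.span ((fun e => monomial e (1 : K)) '' gens G 1) *
            HS i (compEdgeIdeal K G ^ s) := by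
        conv_lhs => rw [hgen]
        rw [← hgen]
      rw [hmul]
      unfold HS
      rw [Ideal.span_mul_span', Ideal.span_le]
      rintro _ ⟨_, ⟨e, ⟨d, hd, he⟩, rfl⟩, _, ⟨a', ha', rfl⟩, rfl⟩
      obtain ⟨u, v, huv, rfl⟩ : ∃ u v, G.Adj u v ∧ d = dl u + dl v := by
        cases hd with
        | @add k a u v h huv =>
          cases h
          exact ⟨u, v, huv, by rw [zero_add]⟩
      rw [torNeZero_iff hA] at ha'
      obtain ⟨b, hb, hE⟩ := ha'
      refine Ideal.subset_span ⟨e + a', ?_, by simp only [monomial_mul, mul_one]⟩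
      rw [torNeZero_iff hA]
      refine ⟨b + dl u + dl v, fun x => ?_,
        Pool.Agent.Lib.MP_97fe03_al.comb_two hG.preconnected hA hi his huv hE⟩
      have h1 := hb x
      have h2 := he x
      simp only [Pi.add_apply, Finsupp.add_apply] at h1 h2 ⊢
      omega
  · have hsub : Subsingleton (Fin n) := not_nontrivial_iff_subsingleton.mp hn
    have hI : compEdgeIdeal K G = ⊥ := by
      unfold compEdgeIdeal
      rw [Ideal.span_eq_bot]
      rintro p ⟨j, k, hjk, -⟩
      exact absurd (Subsingleton.elim j k) hjk.ne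
    rw [hI]
    have h1 : (⊥ : Ideal (MvPolynomial (Fin n) K)) ^ (s + 1) = ⊥ := by
      rw [pow_succ, Ideal.mul_bot]
    rw [h1, Ideal.bot_mul]
    unfold HS
    rw [Ideal.span_eq_bot]
    rintro p ⟨a, ha, -⟩
    exact absurd ha torNeZero_bot

end proof

/-- For a connected graph `G` on `Fin n` with complementary edge ideal `I`, over any field and for
`1 ≤ i ≤ s`: `HS_i(I^(s+1)) = I * HS_i(I^s)`. -/
theorem result (K : Type*) [Field K] (n : ℕ) (G : SimpleGraph (Fin n)) (hG : G.Connected)
    (i s : ℕ) (hi : 1 ≤ i) (his : i ≤ s) :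
    HS i (compEdgeIdeal K G ^ (s + 1)) = compEdgeIdeal K G * HS i (compEdgeIdeal K G ^ s) :=
  main_aux K n G hG i s hi his

end Pool.Agent.Results.MP_97fe03_al.GeneratedInDegree
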